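import Pool.Agent.N929.AP.Main

/-!
# The generating function of fixed polyominoes: analytic continuation

`Kl.t n` is the number of fixed `n`-ominoes (classes of connected `n`-sets of cells of the square
lattice modulo translations).
-/

set_option autoImplicit false

namespace Pool.Agent.Results.MP_66fa61_co.AnalyticContinuation

open Filter Topology Pool.Agent.N789

/-- The cosine of the argument of `z ≠ 0`. -/
noncomputable def cosArg (z : ℂ) : ℝ := z.re / ‖z‖

/-- The domain `|z| < (1 + δ (1 - cos (arg z))) / lam`: the disc of convergence enlarged at all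
points of the circle of convergence except `1/lam`. -/
def Dom (lam δ : ℝ) : Set ℂ := {z | lam * ‖z‖ < 1 + δ * (1 - cosArg z)}

/-- **Theorem.** Let `t n` be the number of fixed polyominoes with `n` cells and `lam` the limit of
`t(n)^(1/n)`. For some `δ > 0` the generating function `∑ t(n) z^n`, whose radius of convergence is
`1/lam`, extends to a holomorphic function `f` on the connected open set `Dom lam δ`, which contains
the open disc of convergence and all points of the circle `|z| = 1/lam` except `z = 1/lam`. On this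
domain `|f z|` is at most a constant plus the value of the series at the point
`(1 - δ (1 - cos (arg z))) / lam` of the interval of convergence. -/
theorem result : ∃ lam : ℝ, 1 ≤ lam ∧
    Tendsto (fun n : ℕ => (Kl.t n : ℝ) ^ ((1 : ℝ) / n)) atTop (𝓝 lam) ∧ ∃ δ : ℝ, 0 < δ ∧
    (IsOpen (Dom lam δ) ∧ IsPreconnected (Dom lam δ) ∧
      (∀ z : ℂ, lam * ‖z‖ < 1 → z ∈ Dom lam δ) ∧
      ∀ z : ℂ, lam * ‖z‖ = 1 → z ≠ ((1 / lam : ℝ) : ℂ) → z ∈ Dom lam δ) ∧
    ∃ (f : ℂ → ℂ) (C : ℝ), DifferentiableOn ℂ f (Dom lam δ) ∧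
      (∀ z : ℂ, lam * ‖z‖ < 1 → HasSum (fun n => (Kl.t n : ℂ) * z ^ n) (f z)) ∧
      ∀ z ∈ Dom lam δ, z ≠ 0 → cosArg z < 1 →
        Summable (fun n => (Kl.t n : ℝ) * ((1 - δ * (1 - cosArg z)) / lam) ^ n) ∧
        ‖f z‖ ≤ C + ∑' n, (Kl.t n : ℝ) * ((1 - δ * (1 - cosArg z)) / lam) ^ n := by
  obtain ⟨δ, hδ, ⟨d1, d2, d3, d4⟩, f, C, ⟨f1, f2⟩, f3⟩ := Pool.Agent.N929.AP.omino_ac
  have hcs : ∀ z : ℂ, Pool.Agent.N929.AC.cs 1 z = cosArg z := by
    intro z
    unfold Pool.Agent.N929.AC.cs cosArg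
    rw [pow_one, pow_one]
  have hdom : Pool.Agent.N929.AC.Om δ Kl.lam 1 = Dom Kl.lam δ := by
    ext z
    show Kl.lam * ‖z‖ < 1 + δ * (1 - Pool.Agent.N929.AC.cs 1 z) ↔
      Kl.lam * ‖z‖ < 1 + δ * (1 - cosArg z)
    rw [hcs]
  rw [hdom] at d1 d2 d3 d4 f1 f3
  refine ⟨Kl.lam, Kl.one_le_lam, Kl.tendsto_lam, δ, hδ, ⟨d1, d2, d3, d4⟩, f, C, f1, ?_, ?_⟩
  · intro z hz
    have h := f2 z hz
    push_cast at h
    exact h
  · intro z hz h0 h1
    have h := f3 z hz h0 (by rw [hcs]; exact h1)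
    unfold Pool.Agent.N929.AC.xx at h
    rw [hcs] at h
    exact h

end Pool.Agent.Results.MP_66fa61_co.AnalyticContinuation
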