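import Pool.Agent.N721.Poly.Rat

/-!
# The generating function of fixed polyominoes is not rational

`Kl.t n` is the number of fixed `n`-ominoes (classes of connected `n`-sets of cells of the square
lattice modulo translations), and `lam` is the limit of `(t n) ^ (1 / n)`.

The series `T(z) = ∑ t(n) z ^ n` is not a quotient of two polynomials; more precisely, for no
polynomial `Q ≠ 0` does the product `Q T` have a radius of convergence larger than `1 / lam`, so
`T` does not extend meromorphically to any disc larger than its disc of convergence.

The proof: sliding one `n`-omino horizontally towards another one, for every relative height,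
gives `√n * t(n) ^ 2 ≤ 4 * t(2 n + 1)` (the two pieces are joined by one cell, the only one whose
removal leaves two pieces with `n` cells each); with `t(m) ≤ lam ^ m` this gives
`t(n) / lam ^ n → 0`, hence `(1 / lam - |z|) T(z) → 0` at the circle of convergence, and there are
no poles on it.
-/

namespace Pool.Agent.Results.MP_66fa61_co.PolyominoSeriesNotRational

open Filter Topology Polynomial Pool.Agent.N789

/-- The generating function of fixed polyominoes, over `ℚ`. -/
noncomputable def T : PowerSeries ℚ := PowerSeries.mk fun n => (Kl.t n : ℚ)

/-- The generating function of fixed polyominoes, over `ℂ`. -/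
noncomputable def TC : PowerSeries ℂ := PowerSeries.mk fun n => (Kl.t n : ℂ)

/-- **The generating function of fixed polyominoes is not rational**; it is not even meromorphic
in a disc larger than its disc of convergence. -/
theorem result :
    (∀ P Q : ℚ[X], Q ≠ 0 → (Q : PowerSeries ℚ) * T ≠ (P : PowerSeries ℚ)) ∧
    ∃ lam : ℝ, 0 < lam ∧
      Tendsto (fun n : ℕ => (Kl.t n : ℝ) ^ ((1 : ℝ) / n)) atTop (𝓝 lam) ∧
      ∀ Q : ℂ[X], Q ≠ 0 → ∀ r : ℝ, 1 / lam < r →
        ¬ Summable fun n : ℕ => ‖PowerSeries.coeff n ((Q : PowerSeries ℂ) * TC)‖ * r ^ n := by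
  refine ⟨fun P Q hQ => Pool.Agent.N721.Poly.not_rational_Q P Q hQ, Kl.lam, Kl.lam_pos,
    Kl.tendsto_lam, fun Q hQ r hr => ?_⟩
  rw [one_div] at hr
  exact Pool.Agent.N721.Poly.not_merom Q hQ hr

end Pool.Agent.Results.MP_66fa61_co.PolyominoSeriesNotRational
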